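import Pool.Agent.Run7.h951.BG.Stm

/-! Pieces ROOT, NU1, NU2, NU3 of the project BG (helper951). -/

set_option autoImplicit false

open MeasureTheory Filter Topology Polynomial
open scoped ENNReal

namespace Run7.h631.BG

open Pool.Agent.Run7.h951.BG

theorem mem_Rt (j : ℕ) (z : ℂ) : z ∈ Rt j ↔ z ^ (2 ^ j) = 1 := by
  unfold Rt
  exact Polynomial.mem_nthRootsFinset (by positivity) 1

theorem card_Rt (j : ℕ) : (Rt j).card = 2 ^ j := by
  unfold Rt
  exact (Complex.isPrimitiveRoot_exp (2 ^ j) (by positivity)).card_nthRootsFinset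

theorem t_ROOT : S_ROOT := by
  refine ⟨mem_Rt, card_Rt, ?_, ?_, ?_, ?_⟩
  · intro i j hij z hz
    rw [mem_Rt] at hz ⊢
    obtain ⟨k, rfl⟩ := Nat.exists_eq_add_of_le hij
    rw [pow_add, pow_mul, hz, one_pow]
  · intro j z hz
    rw [mem_Rt] at hz
    have h : ‖z‖ ^ (2 ^ j) = 1 := by rw [← norm_pow, hz, norm_one]
    exact (pow_eq_one_iff_of_nonneg (norm_nonneg _) (by positivity)).1 h
  · intro j z hz w hw
    rw [mem_Rt] at hz hw ⊢
    rw [mul_pow, hz, hw, one_mul]
  · intro j z w hz hw
    have hw0 : w ≠ 0 := by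
      intro h
      rw [h, norm_zero] at hw
      exact zero_ne_one hw
    set N : ℝ := 2 ^ j with hN
    have hN0 : 0 < N := by positivity
    set β : ℝ := (z / w).arg with hβ
    have hzw : z = w * Complex.exp (β * Complex.I) := by
      have h1 : ‖z / w‖ = 1 := by rw [norm_div, hz, hw, div_one]
      have h2 := Complex.norm_mul_exp_arg_mul_I (z / w)
      rw [h1, Complex.ofReal_one, one_mul] at h2
      rw [← hβ] at h2
      rw [h2]
      field_simp
    set l : ℤ := ⌊β * N / (2 * Real.pi)⌋ with hl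
    set γ : ℝ := 2 * Real.pi * l / N with hγ
    refine ⟨Complex.exp (γ * Complex.I), ?_, ?_⟩
    · rw [mem_Rt, ← Complex.exp_nat_mul]
      rw [Complex.exp_eq_one_iff]
      refine ⟨l, ?_⟩
      rw [hγ, hN]
      push_cast
      have : (2 : ℂ) ^ j ≠ 0 := pow_ne_zero _ two_ne_zero
      field_simp
    · have h1 : z - Complex.exp (γ * Complex.I) * w =
          w * Complex.exp (γ * Complex.I) * (Complex.exp (Complex.I * ((β - γ : ℝ) : ℂ)) - 1) := by
        have h2 : Complex.exp (Complex.I * ((β - γ : ℝ) : ℂ)) * Complex.exp (γ * Complex.I) =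
            Complex.exp (β * Complex.I) := by
          rw [← Complex.exp_add]
          congr 1
          push_cast
          ring
        rw [hzw, ← h2]
        ring
      rw [h1, norm_mul, norm_mul, hw, Complex.norm_exp_ofReal_mul_I, one_mul, one_mul]
      refine Real.norm_exp_I_mul_ofReal_sub_one_le.trans ?_
      rw [Real.norm_eq_abs]
      have h3 : β - γ = 2 * Real.pi / N * (β * N / (2 * Real.pi) - l) := by
        rw [hγ]
        have := Real.pi_pos
        field_simp
      have h4 : 0 ≤ β * N / (2 * Real.pi) - l := sub_nonneg.2 (Int.floor_le _)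
      have h5 : β * N / (2 * Real.pi) - l ≤ 1 := by
        have := Int.lt_floor_add_one (β * N / (2 * Real.pi))
        linarith
      have h6 : 0 < 2 * Real.pi / N := by have := Real.pi_pos; positivity
      rw [h3, abs_of_nonneg (mul_nonneg h6.le h4)]
      calc 2 * Real.pi / N * (β * N / (2 * Real.pi) - l) ≤ 2 * Real.pi / N * 1 := by gcongr
        _ ≤ 7 / N := by
          rw [mul_one]
          have := Real.pi_lt_d2
          gcongr
          linarith

/-! ### The measure -/

/-- The `j`-th term of `nu`. -/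
noncomputable def tm (j : ℕ) : Measure ℂ :=
  ENNReal.ofReal (cw j / 2 ^ j) • ∑ ζ ∈ Rt j, Measure.dirac ζ

theorem nu_apply (A : Set ℂ) (hA : MeasurableSet A) : nu A = ∑' j, tm j A := by
  unfold nu
  rw [Measure.sum_apply _ hA]
  rfl

theorem tm_apply (j : ℕ) (A : Set ℂ) (hA : MeasurableSet A) :
    tm j A = ENNReal.ofReal (cw j / 2 ^ j) * ∑ ζ ∈ Rt j, A.indicator (1 : ℂ → ℝ≥0∞) ζ := by
  unfold tm
  rw [Measure.smul_apply, Measure.finsetSum_apply, smul_eq_mul]
  congr 1
  exact Finset.sum_congr rfl fun ζ _ => Measure.dirac_apply' ζ hA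

theorem cw_pos (j : ℕ) : 0 < cw j := by
  unfold cw
  positivity

theorem tm_univ (j : ℕ) : tm j Set.univ = ENNReal.ofReal (cw j) := by
  rw [tm_apply j _ MeasurableSet.univ]
  simp only [Set.indicator_univ, Pi.one_apply, Finset.sum_const, card_Rt, nsmul_eq_mul, mul_one]
  have h : ((2 ^ j : ℕ) : ℝ≥0∞) = ENNReal.ofReal (2 ^ j) := by
    rw [ENNReal.ofReal_pow (by norm_num)]
    norm_num
  rw [h, ← ENNReal.ofReal_mul (by have := cw_pos j; positivity)]
  congr 1
  field_simp

theorem cw_shift (j i : ℕ) : cw (i + (j + 1)) ≤ cw (j + 1) * (1 / 2) ^ i := by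
  unfold cw
  rw [← pow_add]
  refine pow_le_pow_of_le_one (by norm_num) (by norm_num) ?_
  induction i with
  | zero => simp
  | succ i ih =>
    have h : 4 ^ (i + 1 + (j + 1)) = 4 * 4 ^ (i + (j + 1)) := by
      rw [← pow_succ']
      congr 1
      ring
    have h1 : 1 ≤ 4 ^ (i + (j + 1)) := Nat.one_le_pow _ _ (by norm_num)
    omega

theorem cw_le (i : ℕ) : cw i ≤ (1 / 2) ^ i := by
  unfold cw
  refine pow_le_pow_of_le_one (by norm_num) (by norm_num) ?_
  exact (Nat.lt_pow_self (by norm_num : 1 < 4)).le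

theorem cw_summable : Summable cw :=
  Summable.of_nonneg_of_le (fun j => (cw_pos j).le) cw_le
    (summable_geometric_of_lt_one (by norm_num) (by norm_num))

theorem nu_fin : IsFiniteMeasure nu := by
  refine ⟨?_⟩
  rw [nu_apply _ MeasurableSet.univ]
  simp only [tm_univ]
  exact cw_summable.tsum_ofReal_ne_top.lt_top

theorem t_NU1 : S_ROOT → S_NU1 := by
  intro hR
  obtain ⟨-, -, -, hnorm, -, -⟩ := hR
  refine ⟨nu_fin, ?_, ?_⟩
  · rw [nu_apply _ Metric.isClosed_sphere.measurableSet.compl]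
    rw [ENNReal.tsum_eq_zero]
    intro j
    rw [tm_apply j _ Metric.isClosed_sphere.measurableSet.compl]
    rw [Finset.sum_eq_zero, mul_zero]
    intro ζ hζ
    rw [Set.indicator_of_notMem]
    intro h
    apply h
    rw [mem_sphere_zero_iff_norm]
    exact hnorm j ζ hζ
  · intro j ζ hζ
    have := nu_fin
    have h1 : ENNReal.ofReal (cw j / 2 ^ j) ≤ nu {ζ} := by
      rw [nu_apply _ (measurableSet_singleton ζ)]
      refine le_trans ?_ (ENNReal.le_tsum j)
      rw [tm_apply j _ (measurableSet_singleton ζ)]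
      have h2 : (1 : ℝ≥0∞) ≤ ∑ ξ ∈ Rt j, ({ζ} : Set ℂ).indicator (1 : ℂ → ℝ≥0∞) ξ := by
        refine le_trans ?_ (Finset.single_le_sum (fun _ _ => zero_le) hζ)
        rw [Set.indicator_of_mem (Set.mem_singleton ζ)]
        exact le_rfl
      calc ENNReal.ofReal (cw j / 2 ^ j) = ENNReal.ofReal (cw j / 2 ^ j) * 1 := (mul_one _).symm
        _ ≤ _ := by gcongr
    exact (ENNReal.ofReal_le_iff_le_toReal (measure_ne_top _ _)).1 h1

theorem meas_Rt (j : ℕ) : MeasurableSet ((Rt j : Set ℂ)) := (Finset.measurableSet _)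

theorem t_NU2 : S_ROOT → S_NU2 := by
  intro hR j
  obtain ⟨-, -, hsub, -, -, -⟩ := hR
  have h1 : nu ((Rt j : Set ℂ))ᶜ ≤ ENNReal.ofReal (2 * cw (j + 1)) := by
    rw [nu_apply _ (meas_Rt j).compl]
    rw [← (ENNReal.summable).sum_add_tsum_nat_add' (k := j + 1)]
    have h0 : ∑ i ∈ Finset.range (j + 1), tm i ((Rt j : Set ℂ))ᶜ = 0 := by
      refine Finset.sum_eq_zero fun i hi => ?_
      rw [tm_apply i _ (meas_Rt j).compl, Finset.sum_eq_zero, mul_zero]
      intro ζ hζ
      rw [Set.indicator_of_notMem]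
      intro h
      apply h
      exact Finset.mem_coe.2 (hsub i j (by have := Finset.mem_range.1 hi; omega) hζ)
    rw [h0, zero_add]
    have hg : Summable fun i : ℕ => cw (j + 1) * (1 / 2 : ℝ) ^ i :=
      (summable_geometric_of_lt_one (by norm_num) (by norm_num)).mul_left _
    calc ∑' i, tm (i + (j + 1)) ((Rt j : Set ℂ))ᶜ
        ≤ ∑' i, ENNReal.ofReal (cw (j + 1) * (1 / 2 : ℝ) ^ i) := by
          refine ENNReal.tsum_le_tsum fun i => ?_
          refine (measure_mono (Set.subset_univ _)).trans ?_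
          rw [tm_univ]
          exact ENNReal.ofReal_le_ofReal (cw_shift j i)
      _ = ENNReal.ofReal (∑' i, cw (j + 1) * (1 / 2 : ℝ) ^ i) :=
          (ENNReal.ofReal_tsum_of_nonneg (fun i => by have := cw_pos (j + 1); positivity) hg).symm
      _ = ENNReal.ofReal (2 * cw (j + 1)) := by
          rw [tsum_mul_left, tsum_geometric_of_lt_one (by norm_num) (by norm_num)]
          congr 1
          ring
  have h2 := ENNReal.toReal_mono ENNReal.ofReal_ne_top h1
  rwa [ENNReal.toReal_ofReal (by have := cw_pos (j + 1); positivity)] at h2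

theorem t_NU3 : S_ROOT → S_NU3 := by
  classical
  intro hR j ω hω f hf
  obtain ⟨hmem, -, hsub, hnorm, hmul, -⟩ := hR
  have hω0 : ω ≠ 0 := by
    intro h
    have := hnorm j ω hω
    rw [h, norm_zero] at this
    exact zero_ne_one this
  have hmeas : Measurable fun z : ℂ => ω * z := by fun_prop
  have key : Measure.map (fun z : ℂ => ω * z) (nu.restrict ((Rt j : Set ℂ))ᶜ) =
      nu.restrict ((Rt j : Set ℂ))ᶜ := by
    ext A hA
    rw [Measure.map_apply hmeas hA, Measure.restrict_apply (hmeas hA), Measure.restrict_apply hA]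
    rw [nu_apply _ ((hmeas hA).inter (meas_Rt j).compl), nu_apply _ (hA.inter (meas_Rt j).compl)]
    refine tsum_congr fun i => ?_
    rw [tm_apply i _ ((hmeas hA).inter (meas_Rt j).compl),
      tm_apply i _ (hA.inter (meas_Rt j).compl)]
    congr 1
    rcases le_total i j with hij | hij
    · rw [Finset.sum_eq_zero, Finset.sum_eq_zero]
      · intro ζ hζ
        rw [Set.indicator_of_notMem]
        intro h
        exact h.2 (Finset.mem_coe.2 (hsub i j hij hζ))
      · intro ζ hζ
        rw [Set.indicator_of_notMem]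
        intro h
        exact h.2 (Finset.mem_coe.2 (hsub i j hij hζ))
    · have hωj : ω ^ (2 ^ j) = 1 := (hmem j ω).1 hω
      have hωi : ω ^ (2 ^ i) = 1 := (hmem i ω).1 (hsub j i hij hω)
      refine Finset.sum_equiv (Equiv.mulLeft₀ ω hω0) ?_ ?_
      · intro ζ
        rw [Equiv.mulLeft₀_apply, hmem, hmem, mul_pow, hωi, one_mul]
      · intro ζ _
        have hiff : ζ ∈ ((fun z : ℂ => ω * z) ⁻¹' A ∩ ((Rt j : Set ℂ))ᶜ) ↔
            (Equiv.mulLeft₀ ω hω0) ζ ∈ (A ∩ ((Rt j : Set ℂ))ᶜ) := by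
          rw [Equiv.mulLeft₀_apply]
          simp only [Set.mem_inter_iff, Set.mem_preimage, Set.mem_compl_iff, Finset.mem_coe, hmem,
            mul_pow, hωj, one_mul]
        by_cases h : ζ ∈ ((fun z : ℂ => ω * z) ⁻¹' A ∩ ((Rt j : Set ℂ))ᶜ)
        · rw [Set.indicator_of_mem h, Set.indicator_of_mem (hiff.1 h)]
          rfl
        · rw [Set.indicator_of_notMem h, Set.indicator_of_notMem (fun h' => h (hiff.2 h'))]
  have h := integral_map (μ := nu.restrict ((Rt j : Set ℂ))ᶜ) (φ := fun z : ℂ => ω * z)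
    hmeas.aemeasurable (f := f) hf.aestronglyMeasurable
  rw [key] at h
  exact h.symm

end Run7.h631.BG
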